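import Pool.Agent.Helper37.KDB.Extra

/-! Project KDB, piece C7: existence of the parameters (proof by helper32, strengthened form). -/

set_option autoImplicit false

namespace KDB.I.C7s

open MeasureTheory KDB
open scoped ENNReal

/-- `200 (300 + 7 x) ≤ exp (x / 20)` for `x ≥ 1000` -/
lemma exp_aux (x : ℝ) (hx : 1000 ≤ x) : 200 * (300 + 7 * x) ≤ Real.exp (x * (1 / 20)) := by
  have hy : (50 : ℝ) ≤ x * (1 / 20) := by linarith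
  set y := x * (1 / 20) with hydef
  have hxy : x = 20 * y := by rw [hydef]; ring
  have h5 : y ^ 5 / (Nat.factorial 5 : ℝ) ≤ Real.exp y :=
    Real.pow_div_factorial_le_exp y (by linarith) 5
  have hf : (Nat.factorial 5 : ℝ) = 120 := by norm_num [Nat.factorial]
  rw [hf] at h5
  have h4 : (50 : ℝ) ^ 4 ≤ y ^ 4 := pow_le_pow_left₀ (by norm_num) hy 4
  have h6 : (50 : ℝ) ^ 4 * y ≤ y ^ 5 := by
    calc (50 : ℝ) ^ 4 * y ≤ y ^ 4 * y := mul_le_mul_of_nonneg_right h4 (by linarith)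
      _ = y ^ 5 := by ring
  have h7 : (50 : ℝ) ^ 4 * y / 120 ≤ y ^ 5 / 120 :=
    div_le_div_of_nonneg_right h6 (by norm_num)
  rw [hxy]
  nlinarith

/-- existence of parameters: `L`, `mu`, `R` once and for all, then every large `q`, every large
`d`, every small `lam` -/
theorem params : ∃ (L : ℕ) (mu R : ℝ) (q0 : ℕ), ∀ q : ℕ, q0 ≤ q → ∃ d0 : ℕ, ∀ d : ℕ, d0 ≤ d →
    ∃ lam0 : ℝ, 0 < lam0 ∧ ∀ lam : ℝ, 0 < lam → lam ≤ lam0 →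
    ∀ (n H : ℕ) (vs eps : ℝ), 1 ≤ n → 1 ≤ H →
    0 < vs → vs * (1 + (L : ℝ) ^ n) ≤ 1 / 100 → 0 < eps → eps < 1 →
    (⟨d, L, q, n, H, mu, lam, vs, eps, R⟩ : Par).Reg := by
  obtain ⟨N, hN⟩ := exists_nat_ge (Real.exp 1000)
  obtain ⟨L, hLdef⟩ : ∃ L : ℕ, L = 4 * N := ⟨_, rfl⟩
  have hLN : (L : ℝ) = 4 * N := by rw [hLdef]; push_cast; ring
  have he0 : (1001 : ℝ) ≤ Real.exp 1000 := by
    have := Real.add_one_le_exp (1000 : ℝ)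
    linarith
  have hLexp : Real.exp 1000 ≤ (L : ℝ) := by rw [hLN]; linarith
  have hL1 : (1001 : ℝ) ≤ (L : ℝ) := he0.trans hLexp
  have hLpos : (0 : ℝ) < (L : ℝ) := by linarith
  obtain ⟨x, hxdef⟩ : ∃ x : ℝ, x = Real.log L := ⟨_, rfl⟩
  have hx : 1000 ≤ x := by
    rw [hxdef, Real.le_log_iff_exp_le hLpos]
    exact hLexp
  obtain ⟨mu, hmu⟩ : ∃ mu : ℝ, mu = 300 + 7 * x := ⟨_, rfl⟩
  have hmu1 : 300 ≤ mu := by rw [hmu]; linarith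
  obtain ⟨R, hR⟩ : ∃ R : ℝ, R = 10 * (1000 * (L : ℝ) ^ 2 * mu) := ⟨_, rfl⟩
  have hL2 : (1 : ℝ) ≤ (L : ℝ) ^ 2 := one_le_pow₀ (by linarith)
  have hK2 : (0 : ℝ) ≤ 1000 * (L : ℝ) ^ 2 * mu := by positivity
  have hR1 : 1 ≤ R := by
    rw [hR]
    nlinarith
  have hlogC : (0 : ℝ) ≤ Real.log ((⌈64 * (R + (L : ℝ))⌉₊ : ℝ) + 1) := by
    apply Real.log_nonneg
    have : (0 : ℝ) ≤ (⌈64 * (R + (L : ℝ))⌉₊ : ℝ) := Nat.cast_nonneg _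
    linarith
  obtain ⟨q0, hq0⟩ := exists_nat_ge (10000 * (400 * mu + 1000 * (L : ℝ) ^ 2 * mu + L +
    Real.log ((⌈64 * (R + (L : ℝ))⌉₊ : ℝ) + 1)) + 10 * (400 * mu) + 128 * (R + L) + 1)
  refine ⟨L, mu, R, q0, fun q hqq => ?_⟩
  have hq := hq0.trans (show (q0 : ℝ) ≤ q by exact_mod_cast hqq)
  have hS : (0 : ℝ) ≤ 10000 * (400 * mu + 1000 * (L : ℝ) ^ 2 * mu + L +
    Real.log ((⌈64 * (R + (L : ℝ))⌉₊ : ℝ) + 1)) := by positivity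
  have hq1 : (1 : ℝ) ≤ q := by linarith
  have hq8 : 10 * (400 * mu) ≤ q := by linarith
  have hqR : 128 * (R + L) ≤ q := by linarith
  have hq6 : 10000 * (400 * mu + 1000 * (L : ℝ) ^ 2 * mu + L +
    Real.log ((⌈64 * (R + (L : ℝ))⌉₊ : ℝ) + 1)) ≤ q := by linarith
  obtain ⟨d0, hdd0⟩ := exists_nat_ge (1000 * (((q : ℝ) + 1) + 1) * (400 * mu) + 1)
  refine ⟨d0, fun d hdd => ?_⟩
  have hd := hdd0.trans (show (d0 : ℝ) ≤ d by exact_mod_cast hdd)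
  have hd0 : (0 : ℝ) ≤ 1000 * (((q : ℝ) + 1) + 1) * (400 * mu) := by positivity
  have hd1 : (1 : ℝ) ≤ d := by linarith
  have hden : (0 : ℝ) < (2 : ℝ) ^ d * d * (q + 1) := by positivity
  have hL4 : (0 : ℝ) < (L : ℝ) ^ 4 := by positivity
  have hlam0 : (0 : ℝ) < 1 / (10000 * ((2 : ℝ) ^ d * d * (q + 1)) * (L : ℝ) ^ 4) :=
    div_pos one_pos (mul_pos (mul_pos (by norm_num) hden) hL4)
  refine ⟨1 / (10000 * ((2 : ℝ) ^ d * d * (q + 1)) * (L : ℝ) ^ 4), hlam0, ?_⟩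
  intro lam hlam hlam1 n H vs eps hn hH hvs hvs1 heps heps1
  refine ⟨⟨?_, ?_, ?_, ?_, hn, hH, ?_, ?_, hvs, hvs1, heps, heps1, hR1, ?_⟩, ?_, ?_, ?_, ?_, ?_,
    ?_, ?_, ?_⟩
  · exact_mod_cast hd1
  · show 4 ∣ L
    rw [hLdef]
    exact dvd_mul_right 4 N
  · show 1000 ≤ L
    have : ((1000 : ℕ) : ℝ) ≤ (L : ℝ) := by push_cast; linarith
    exact_mod_cast this
  · exact_mod_cast hq1
  · show 0 < mu
    linarith
  · exact hlam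
  · show (2 : ℝ) ^ q * (8 * R + 8 * (L : ℝ)) ≤ ((L ^ q : ℕ) : ℝ) / 16
    push_cast
    have h1 : (q : ℝ) ≤ (2 : ℝ) ^ q := by
      have h := (Nat.lt_two_pow_self (n := q)).le
      have h' : ((q : ℕ) : ℝ) ≤ ((2 ^ q : ℕ) : ℝ) := by exact_mod_cast h
      simpa using h'
    have h2 : (2 : ℝ) ^ q * (2 : ℝ) ^ q ≤ (L : ℝ) ^ q := by
      rw [← mul_pow]
      exact pow_le_pow_left₀ (by norm_num) (by linarith) q
    have h3 : (0 : ℝ) < (2 : ℝ) ^ q := by positivity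
    have h4 : (2 : ℝ) ^ q * (128 * (R + L)) ≤ (2 : ℝ) ^ q * (2 : ℝ) ^ q :=
      mul_le_mul_of_nonneg_left (hqR.trans h1) h3.le
    linarith
  · show 1000 ≤ Real.log (L : ℝ)
    rw [← hxdef]
    exact hx
  · show 300 + 7 * Real.log (L : ℝ) ≤ mu
    rw [← hxdef, hmu]
  · show 200 * mu ≤ (L : ℝ) ^ (1 / 20 : ℝ)
    rw [Real.rpow_def_of_pos hLpos, ← hxdef, hmu]
    exact exp_aux x hx
  · show lam * ((2 : ℝ) ^ d * d * (q + 1)) * (L : ℝ) ^ 4 ≤ 1 / 10000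
    calc lam * ((2 : ℝ) ^ d * d * (q + 1)) * (L : ℝ) ^ 4 ≤
        1 / (10000 * ((2 : ℝ) ^ d * d * (q + 1)) * (L : ℝ) ^ 4) *
          ((2 : ℝ) ^ d * d * (q + 1)) * (L : ℝ) ^ 4 := by gcongr
      _ = 1 / 10000 := by field_simp
  · show 10 * (1000 * (L : ℝ) ^ 2 * mu) ≤ R
    rw [hR]
  · show 10000 * (400 * mu + 1000 * (L : ℝ) ^ 2 * mu + L +
      Real.log ((⌈64 * (R + (L : ℝ))⌉₊ : ℝ) + 1)) ≤ Real.log ((L ^ q : ℕ) : ℝ)
    push_cast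
    rw [Real.log_pow, ← hxdef]
    refine hq6.trans ?_
    nlinarith
  · show 1000 * (((q + 1 : ℕ) : ℝ) + 1) * (400 * mu) ≤ d
    push_cast
    linarith
  · show 10 * (400 * mu) ≤ (q : ℝ)
    exact hq8

end KDB.I.C7s
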