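import Pool.Agent.Helper37.KDB.Defs

/-! Project KDB: the code of a realisation of the noise. -/

set_option autoImplicit false

namespace KDB

open MeasureTheory

namespace Par

variable (p : Par)

/-- standing assumptions of the deterministic part -/
structure Ok : Prop where
  hd : 1 ≤ p.d
  hL4 : 4 ∣ p.L
  hL : 1000 ≤ p.L
  hq : 1 ≤ p.q
  hn : 1 ≤ p.n
  hH : 1 ≤ p.H
  hmu : 0 < p.mu
  hlam : 0 < p.lam
  hvs : 0 < p.vs
  hvs1 : p.vs * (1 + (p.L : ℝ) ^ p.n) ≤ 1 / 100
  heps : 0 < p.eps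
  heps1 : p.eps < 1
  hR : 1 ≤ p.R
  hRs : (2 : ℝ) ^ p.q * (8 * p.R + 8 * p.L) ≤ p.ell / 16

/-- residues -/
def emd {d : ℕ} (N : ℕ) (a : Fin d → ℤ) : Fin d → ℤ := fun i => a i % (N : ℤ)

/-- floors -/
noncomputable def fl {d : ℕ} (c : ℝ) (x : V d) : Fin d → ℤ := fun i => ⌊x i / c⌋

/-- noise class -/
noncomputable def ncl (x : ℝ) : ℕ := ⌈Real.logb 2 (max 1 x)⌉₊

variable (om : ℕ → Nz p.d)

/-- total size of the jumps of level `< m` at the steps `a ≤ j < c` -/
noncomputable def nse (m a c : ℕ) : ℝ :=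
  ∑ j ∈ Finset.Ico a c, if p.lv (om j) ≤ m then p.sz (om j) else 0

/-- number of rings of level `i` at the steps `a ≤ j < c` -/
def nring (i a c : ℕ) : ℕ := ((Finset.Ico a c).filter fun j => (om j).lab = i + 2).card

/-- entries of the block code: kick?, level offset, a-window?, sign, slot, noise class,
residues of the aimed lattice point, of the integer correction, of the new velocity and of the
new position -/
abbrev Ent (d : ℕ) : Type :=
  Bool × ℕ × Bool × Bool × ℕ × ℕ × (Fin d → ℤ) × (Fin d → ℤ) × (Fin d → ℤ) × (Fin d → ℤ)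

/-- the listed jump at step `e` of the block of level `m` started at `g`, last
synchronisation at `a` -/
noncomputable def ent (m g a e : ℕ) : Ent p.d :=
  let z := om e
  let r := p.run om e
  let r' := p.run om (e + 1)
  let ko := p.lv z - 1 - m
  let kick : Bool := decide (z.lab = 1)
  let nc := ncl (p.nse om m a e / p.rho m)
  let N := 64 * 2 ^ nc
  let uu := if z.lab = 1 then ko + 1 else ko - p.b
  (kick, ko, (if z.lab = 1 then false else decide (p.inA (z.lab - 2) e)),
    (if z.lab = 1 then false else z.sb),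
    ⌊((e : ℝ) - g) * (p.L * (p.ell : ℝ) ^ (ko + 1)) / p.tau m⌋₊, nc,
    (if z.lab = 1 then 0 else
      emd N (p.rA (z.lab - 2) e (r'.1 - p.vs • z.y1) (r.2 - p.vs • z.y2))),
    (if z.lab = 1 then 0 else
      emd N (p.rm (z.lab - 2) e (r'.1 - p.vs • z.y1) (r.2 - p.vs • z.y2))),
    emd (N * p.ell ^ uu) (fl (p.rho m) r'.2),
    emd N (fl (p.xi m) (r'.1 - (p.h * ((e : ℝ) + 1 - g)) • r'.2)))

/-- the entries of the listed steps `l` -/
noncomputable def ents (m g : ℕ) : ℕ → List ℕ → List (Ent p.d)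
  | _, [] => []
  | a, e :: l => p.ent om m g a e :: ents m g (e + 1) l

/-- the last synchronisation -/
def lastSync : ℕ → List ℕ → ℕ
  | a, [] => a
  | _, e :: l => lastSync (e + 1) l

/-- the listed steps in `[g, g')`: jumps of level `≥ m` -/
noncomputable def lsteps (m g g' : ℕ) : List ℕ :=
  (List.range' g (g' - g)).filter fun j => decide (m < p.lv (om j))

/-- block code -/
abbrev BCode (d : ℕ) : Type := List (Ent d) × ℕ × (Fin d → ℤ) × (Fin d → ℤ)

/-- the code of the block `[g, g')` of level `m` -/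
noncomputable def blk (m g g' : ℕ) : BCode p.d :=
  let nc := ncl (p.nse om m (lastSync g (p.lsteps om m g g')) g' / p.rho m)
  (p.ents om m g g (p.lsteps om m g g'), nc,
    emd (64 * 2 ^ nc) (fl (p.rho m) (p.run om g').2),
    emd (64 * 2 ^ nc) (fl (p.xi m) (p.run om g').1))

/-- transition code -/
abbrev TCode (d : ℕ) : Type :=
  ℕ × (Fin d → ℤ) × (Fin d → ℤ) × (Fin d → ℤ) × (Fin d → ℤ)

/-- `⌈64 (R + L)⌉` -/
noncomputable def CR : ℕ := ⌈64 * (p.R + p.L)⌉₊

/-- code of the transition to level `i` after the own window with final time `T` -/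
noncomputable def tcS (i T : ℕ) : TCode p.d :=
  let Nw := p.nring om i (T - p.tau i) (T + p.W i)
  let r := p.run om (T + p.W i)
  let A : Fin p.d → ℤ := rd (p.rho (i + 1)) r.2
  (Nw, emd 3 A, emd 3 (rd (p.xi (i + 1)) (r.1 - (p.h * p.W i * p.rho (i + 1)) • toV A)),
    emd (p.CR * 2 ^ Nw) (fl (p.rho i) r.2), emd (p.CR * 2 ^ Nw) (fl (p.xi i) r.1))

/-- code of the transition to a lost level `i` at time `t'` -/
noncomputable def tcL (i t' : ℕ) : TCode p.d :=
  (0, 0, 0, emd (4 * p.ell) (fl (p.rho i) (p.run om t').2),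
    emd (4 * p.ell * p.L) (fl (p.xi i) (p.run om t').1))

/-- the own window with final time `T` of level `i` is good -/
def Good (i T : ℕ) : Prop :=
  p.tau i ≤ T ∧ T % p.tau (i + 1) = p.L / 2 * p.tau i ∧
  (∀ j ∈ Finset.Ico (T - p.tau i) (T + p.W i), ((om j).lab = 1 → p.lv (om j) ≤ i) ∧
    (2 ≤ (om j).lab → (om j).lab ≤ i + 2)) ∧
  (∃ j ∈ Finset.Ico (T - p.tau i) (T - p.tau i + p.W i), (om j).lab = i + 2 ∧ (om j).sb = true) ∧
  (∃ j ∈ Finset.Ico T (T + p.W i), (om j).lab = i + 2 ∧ (om j).sb = true) ∧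
  p.nse om i (T - p.tau i) (T + p.W i) ≤ p.R * p.rho i ∧
  p.nring om i (T - p.tau i) (T + p.W i) ≤ p.q

/-- the `a`-th candidate final time (`a ≥ 1`) of level `i` for the time `t` -/
def cand (t i a : ℕ) : ℕ :=
  let x := t - MM * p.tau (i + 1) + p.tau i
  x + (p.L / 2 * p.tau i + p.tau (i + 1) - x % p.tau (i + 1)) % p.tau (i + 1) +
    (a - 1) * p.tau (i + 1)

/-- start of stage `i` for the choice `c` -/
def Sx (t : ℕ) (c : ℕ → ℕ) (i : ℕ) : ℕ :=
  if t < MM * p.tau (i + 1) then 0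
  else if c i = 0 then t - MM * p.tau i else p.cand t i (c i) + p.W i

/-- end of stage `i` -/
def Ex (t : ℕ) (c : ℕ → ℕ) (i : ℕ) : ℕ := if i = 0 then t else p.Sx t c (i - 1)

/-- block endpoints of stage `i` -/
def gp (t : ℕ) (c : ℕ → ℕ) (i k : ℕ) : ℕ := min (p.Sx t c i + k * p.tau i) (p.Ex t c i)

/-- transition code of level `i` -/
noncomputable def tc (t : ℕ) (c : ℕ → ℕ) (i : ℕ) : TCode p.d :=
  if t < MM * p.tau (i + 1) then 0
  else if c i = 0 then p.tcL om i (t - MM * p.tau i) else p.tcS om i (p.cand t i (c i))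

/-- the choice `c` is compatible with the realisation -/
def Compat (t : ℕ) (c : ℕ → ℕ) : Prop :=
  ∀ i < p.n, MM * p.tau (i + 1) ≤ t → c i ≠ 0 →
    p.Good om i (p.cand t i (c i)) ∧ p.cand t i (c i) + p.W i ≤ t - MM * p.tau i

/-- the code of the realisation for the choice `c` -/
noncomputable def fcode (t : ℕ) (c : ℕ → ℕ) :
    Fin p.n → TCode p.d × (Fin (MM * p.L) → BCode p.d) :=
  fun i => (p.tc om t c i, fun k => p.blk om i (p.gp t c i k) (p.gp t c i (k + 1)))

end Par

end KDB
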