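import Mathlib

/-! Project KDB (MP_019250_an, full negative answer): parameters and the controlled chain.
See /team-store/KDB_plan.md. -/

set_option autoImplicit false

namespace KDB

open MeasureTheory

/-- `ℝ^d` with the sup norm -/
abbrev V (d : ℕ) : Type := Fin d → ℝ

/-- the number of periods remembered by a level -/
def MM : ℕ := 50

/-- parameters: dimension, time ratio `L`, `ell = L^q` space ratio, number of levels `n`, time
resolution `H`, ring intensity `mu`, kick intensity `lam`, jitter `vs`, small jump cutoff `eps`,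
noise tolerance `R` -/
structure Par where
  d : ℕ
  L : ℕ
  q : ℕ
  n : ℕ
  H : ℕ
  mu : ℝ
  lam : ℝ
  vs : ℝ
  eps : ℝ
  R : ℝ

namespace Par

variable (p : Par)

def ell : ℕ := p.L ^ p.q
def b : ℕ := p.q + 1
/-- velocity scale of level `k` -/
def rho (k : ℕ) : ℝ := (p.ell : ℝ) ^ k
/-- position scale of level `k` -/
def xi (k : ℕ) : ℝ := ((p.ell : ℝ) * p.L) ^ k
/-- landing radius of level `k` -/
noncomputable def rad (k : ℕ) : ℝ := (p.ell : ℝ) ^ ((k : ℤ) - (p.b : ℤ))
/-- number of steps of the time unit of level `k` -/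
def tau (k : ℕ) : ℕ := p.H * p.L ^ (k + p.q)
/-- length of the operation windows of level `k` -/
def W (k : ℕ) : ℕ := p.H * p.L ^ k
/-- physical length of a step -/
noncomputable def h : ℝ := 1 / ((p.H : ℝ) * (p.L : ℝ) ^ p.q)
/-- the order of the equation -/
noncomputable def s : ℝ := 1 / (2 * p.q)

/-- phase of the step `j` in the period of level `k` -/
def ph (k j : ℕ) : ℕ := j % p.tau (k + 1)
/-- `j` is in an a-window of level `k` -/
def inA (k j : ℕ) : Prop :=
  (p.L / 2 - 1) * p.tau k ≤ p.ph k j ∧ p.ph k j < (p.L / 2 - 1) * p.tau k + p.W k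
/-- `j` is in a b-window of level `k` -/
def inB (k j : ℕ) : Prop :=
  p.L / 2 * p.tau k ≤ p.ph k j ∧ p.ph k j < p.L / 2 * p.tau k + p.W k

instance (k j : ℕ) : Decidable (p.inA k j) := by unfold inA; infer_instance
instance (k j : ℕ) : Decidable (p.inB k j) := by unfold inB; infer_instance

/-- trapezoid -/
noncomputable def trap (u : ℝ) : ℝ := max 0 (min 1 (min (4 * u) (4 * (1 - u))))

/-- amplitude of level `k` at step `j` -/
noncomputable def chi (k j : ℕ) : ℝ :=
  if p.inA k j then trap (((p.ph k j : ℝ) - (p.L / 2 - 1 : ℕ) * p.tau k) / p.W k)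
  else if p.inB k j then trap (((p.ph k j : ℝ) - (p.L / 2 : ℕ) * p.tau k) / p.W k)
  else 0

/-- physical time from the jump of step `j` to the final time of the period -/
noncomputable def hrem (k j : ℕ) : ℝ :=
  p.h * ((p.L / 2 : ℕ) * (p.tau k : ℝ) - p.ph k j - 1)

/-- coordinatewise rounding of `x / c` -/
noncomputable def rd {d : ℕ} (c : ℝ) (x : V d) : Fin d → ℤ := fun i => round (x i / c)

/-- integer vector as a real vector -/
def toV {d : ℕ} (a : Fin d → ℤ) : V d := fun i => (a i : ℝ)

/-- lattice point aimed at by the ring of level `k` at step `j`, seen from `(x, v)` -/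
noncomputable def rA (k j : ℕ) (x v : V p.d) : Fin p.d → ℤ :=
  if p.inA k j then rd (p.xi (k + 1)) (x + p.hrem k j • v) else rd (p.rho (k + 1)) v

/-- integer correction of the ring of level `k` at step `j`, seen from `(x, v)` -/
noncomputable def rm (k j : ℕ) (x v : V p.d) : Fin p.d → ℤ :=
  if p.inA k j then
    rd (p.xi k) (p.xi (k + 1) • toV (p.rA k j x v) - (x + p.hrem k j • v))
  else rd (p.rho k) (p.rho (k + 1) • toV (p.rA k j x v) - v)

/-- central velocity change of the ring of level `k` at step `j`, seen from `(x, v)` -/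
noncomputable def wst (k j : ℕ) (x v : V p.d) : V p.d :=
  if p.inA k j then (p.xi k / p.hrem k j) • toV (p.rm k j x v)
  else p.rho k • toV (p.rm k j x v)

end Par

/-- noise of one step: label (`0` nothing, `1` kick, `k + 2` ring of level `k`), sign, kick,
landing noise, jitter -/
abbrev Nz (d : ℕ) : Type := ℕ × Bool × V d × V d × (V d × V d)

namespace Nz

variable {d : ℕ} (z : Nz d)

def lab : ℕ := z.1
def sb : Bool := z.2.1
def sg : ℝ := if z.2.1 then 1 else -1
def w : V d := z.2.2.1
def u : V d := z.2.2.2.1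
def y1 : V d := z.2.2.2.2.1
def y2 : V d := z.2.2.2.2.2

end Nz

namespace Par

variable (p : Par)

/-- the velocity change at step `j` with noise `z` at the state `(x, v)` -/
noncomputable def jump (j : ℕ) (z : Nz p.d) (x v : V p.d) : V p.d :=
  if z.lab = 0 then 0
  else if z.lab = 1 then z.w
  else if z.lab - 2 < p.n ∧ (p.inA (z.lab - 2) j ∨ p.inB (z.lab - 2) j) then
    z.sg • (p.wst (z.lab - 2) j (x - p.vs • z.y1) (v - p.vs • z.y2) + p.rad (z.lab - 2) • z.u)
  else 0

/-- states `(x, v)` -/
abbrev St : Type := V p.d × V p.d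

/-- one step of the chain -/
noncomputable def step (j : ℕ) (z : Nz p.d) (a : p.St) : p.St :=
  (a.1 + p.h • a.2, a.2 + p.jump j z (a.1 + p.h • a.2) a.2)

/-- the chain started at `0` -/
noncomputable def run (om : ℕ → Nz p.d) : ℕ → p.St
  | 0 => 0
  | j + 1 => p.step j (om j) (run om j)

open Classical in
/-- level plus one of a kick -/
noncomputable def kl (w : V p.d) : ℕ := ((Finset.range p.n).filter fun k => p.rho k ≤ ‖w‖).card

/-- level plus one of the noise: `m < lv z` iff the jump is of level `≥ m` -/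
noncomputable def lv (z : Nz p.d) : ℕ :=
  if z.lab = 0 then 0 else if z.lab = 1 then p.kl z.w else z.lab - 1

/-- upper bound for the size of the jump -/
noncomputable def sz (z : Nz p.d) : ℝ :=
  if z.lab = 0 then 0 else if z.lab = 1 then ‖z.w‖ else p.L * p.rho (z.lab - 1)

/-- the almost sure restrictions on the noise of step `j` -/
def Valid (j : ℕ) (z : Nz p.d) : Prop :=
  z.lab ≤ p.n + 1 ∧ (2 ≤ z.lab → p.inA (z.lab - 2) j ∨ p.inB (z.lab - 2) j) ∧
  (z.lab = 1 → ‖z.w‖ < p.rho p.n) ∧ ‖z.u‖ ≤ 1 ∧ ‖z.y1‖ ≤ 1 ∧ ‖z.y2‖ ≤ 1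

end Par

end KDB
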