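import Pool.Agent.Helper37.KDB.Reg

/-! Project KDB: further definitions. -/

set_option autoImplicit false

namespace KDB

open MeasureTheory
open scoped ENNReal

variable (p : Par)

/-- position extrapolated back to the step `g` -/
noncomputable def Par.Pos (om : ℕ → Nz p.d) (g j : ℕ) : V p.d :=
  (p.run om j).1 - (p.h * ((j : ℝ) - g)) • (p.run om j).2

/-- predicted position at time `T` -/
noncomputable def Par.Yp (om : ℕ → Nz p.d) (T j : ℕ) : V p.d :=
  (p.run om j).1 + (p.h * ((T : ℝ) - j)) • (p.run om j).2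

/-- only rings of level `i` and noise in the window -/
def Clean (om : ℕ → Nz p.d) (i a c : ℕ) : Prop :=
  ∀ j ∈ Finset.Ico a c, ((om j).lab = 1 → p.lv (om j) ≤ i) ∧ (2 ≤ (om j).lab → (om j).lab ≤ i + 2)

/-- cost of a listed jump at step `j` in a block of level `m` (noise class counted separately) -/
noncomputable def Par.ec (om : ℕ → Nz p.d) (m j : ℕ) : ℝ :=
  let la := Real.log p.ell
  let ko := p.lv (om j) - 1 - m
  let uu := if (om j).lab = 1 then ko + 1 else ko - p.b
  p.d * la * uu + (ko + 1) * (la + 1) + Real.log p.L + 5 + 24 * p.d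

/-- the cost of a code -/
noncomputable def Par.cost (om : ℕ → Nz p.d) (t : ℕ) (c : ℕ → ℕ) : ℝ :=
  let la := Real.log p.ell
  let Y : ℝ := p.Yf om t
  let nu : ℝ := p.nuf om t
  p.d * la * Y + (la + 1) * (Y + (p.b + 1) * nu) + nu * (Real.log p.L + 5 + 24 * p.d) +
    50 * p.L * p.n * (2 + 12 * p.d) + (1 + 4 * p.d) * (nu + 50 * p.L * p.n + p.Nf om t) +
    p.lostf t c * (2 * p.d * la + p.d * Real.log (16 * p.L)) +
    p.n * (1 + 3 * p.d + 2 * p.d * Real.log p.CR) + nu * (1 + 2 * p.d)

end KDB
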