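import Pool.Agent.Helper37.KDB.Defs

/-! Project KDB: the law of the noise. -/

set_option autoImplicit false

namespace KDB

open MeasureTheory
open scoped ENNReal

/-- Euclidean norm -/
noncomputable def e2 {d : ℕ} (w : V d) : ℝ := Real.sqrt (∑ i, w i ^ 2)

/-- law of the jitter: uniform -/
noncomputable def jitLaw (d : ℕ) : Measure (V d × V d) :=
  ((4 : ℝ≥0∞) ^ d)⁻¹ • volume.restrict (Metric.closedBall 0 1)

/-- law of the landing noise -/
noncomputable def uLaw (d : ℕ) : Measure (V d) :=
  ((2 : ℝ≥0∞) ^ d)⁻¹ • volume.restrict (Metric.closedBall 0 1)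

/-- law of the sign -/
noncomputable def sgLaw : Measure Bool :=
  (2 : ℝ≥0∞)⁻¹ • Measure.dirac true + (2 : ℝ≥0∞)⁻¹ • Measure.dirac false

namespace Par

variable (p : Par)

/-- intensity of the kicks per unit of physical time -/
noncomputable def kd (w : V p.d) : ℝ :=
  open Classical in
  if p.eps ≤ ‖w‖ ∧ ‖w‖ < p.rho p.n then p.lam * (e2 w) ^ (-((p.d : ℝ) + 2 * p.s)) else 0

/-- total intensity of the kicks -/
noncomputable def kap : ℝ := ∫ w : V p.d, p.kd w

/-- probability of a ring of level `k` at step `j` -/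
noncomputable def pring (k j : ℕ) : ℝ := p.mu * p.chi k j / p.W k

/-- law of the label -/
noncomputable def labLaw (j : ℕ) : Measure ℕ :=
  ENNReal.ofReal (1 - p.h * p.kap - ∑ k ∈ Finset.range p.n, p.pring k j) • Measure.dirac 0 +
    ENNReal.ofReal (p.h * p.kap) • Measure.dirac 1 +
    ∑ k ∈ Finset.range p.n, ENNReal.ofReal (p.pring k j) • Measure.dirac (k + 2)

/-- law of the kick -/
noncomputable def kickLaw : Measure (V p.d) :=
  (ENNReal.ofReal p.kap)⁻¹ • volume.withDensity fun w => ENNReal.ofReal (p.kd w)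

/-- law of the noise of step `j` -/
noncomputable def stepLaw (j : ℕ) : Measure (Nz p.d) :=
  (p.labLaw j).prod (sgLaw.prod (p.kickLaw.prod ((uLaw p.d).prod (jitLaw p.d))))

/-- extension of finitely many noises by no noise -/
def exte (N : ℕ) (om : Fin N → Nz p.d) : ℕ → Nz p.d := fun j =>
  if hj : j < N then om ⟨j, hj⟩ else (0, true, 0, 0, (0, 0))

/-- law of the first `N` noises -/
noncomputable def pathLaw (N : ℕ) : Measure (Fin N → Nz p.d) :=
  Measure.pi fun j : Fin N => p.stepLaw j

end Par

end KDB
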