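import Pool.Agent.Helper37.KDB.Weights
import Pool.Agent.Helper37.KDB.Law

/-! Project KDB: the parameter regime. -/

set_option autoImplicit false

namespace KDB

open MeasureTheory
open scoped ENNReal

namespace Par

variable (p : Par)

/-- bound for the total relative number of remembered jumps -/
noncomputable def K1 : ℝ := 400 * p.mu

/-- bound for the relative total noise -/
noncomputable def K2 : ℝ := 1000 * (p.L : ℝ) ^ 2 * p.mu

/-- regime: `L` huge, `mu`, `R` depending on `L`, `q` huge depending on these, `d` huge depending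
on `q`, `lam` small depending on `d`, `q` -/
structure Reg : Prop extends p.Ok where
  r1 : 1000 ≤ Real.log p.L
  r2 : 300 + 7 * Real.log p.L ≤ p.mu
  r3 : 200 * p.mu ≤ (p.L : ℝ) ^ (1 / 20 : ℝ)
  r4 : p.lam * ((2 : ℝ) ^ p.d * p.d * (p.q + 1)) * (p.L : ℝ) ^ 4 ≤ 1 / 10000
  r5 : 10 * p.K2 ≤ p.R
  r6 : 10000 * (p.K1 + p.K2 + p.L + Real.log (p.CR + 1)) ≤ Real.log p.ell
  r7 : 1000 * ((p.b : ℝ) + 1) * p.K1 ≤ p.d
  r8 : 10 * p.K1 ≤ p.q

/-- time resolution large: the label law is a probability measure -/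
structure Hok : Prop where
  h1 : p.h * p.kap + ∑ k ∈ Finset.range p.n, p.mu / p.W k ≤ 1 / 2

end Par

end KDB
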