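import Pool.Agent.Helper37.KDB.Code

/-! Project KDB: Kraft weights of the codes and the cost functionals. -/

set_option autoImplicit false

namespace KDB

open MeasureTheory
open scoped ENNReal

/-- uniform weight on residues mod `N` -/
noncomputable def uw {d : ℕ} (N : ℕ) (r : Fin d → ℤ) : ℝ≥0∞ :=
  open Classical in if ∀ i, 0 ≤ r i ∧ r i < N then ((N : ℝ≥0∞) ^ d)⁻¹ else 0

/-- weight of a natural number -/
noncomputable def gw (n : ℕ) : ℝ≥0∞ := ((2 : ℝ≥0∞) ^ (n + 1))⁻¹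

/-- uniform weight on `{0, …, S - 1}` -/
noncomputable def sw (S k : ℕ) : ℝ≥0∞ := if k < S then ((S : ℝ≥0∞))⁻¹ else 0

namespace Par

variable (p : Par)

/-- weight of an entry -/
noncomputable def cEnt (e : Ent p.d) : ℝ≥0∞ :=
  let kick := e.1
  let ko := e.2.1
  let nc := e.2.2.2.2.2.1
  let N := 64 * 2 ^ nc
  let uu := if kick then ko + 1 else ko - p.b
  (2 : ℝ≥0∞)⁻¹ ^ 3 * gw ko * sw (p.L * p.ell ^ (ko + 1)) e.2.2.2.2.1 * gw nc *
    uw N e.2.2.2.2.2.2.1 * uw N e.2.2.2.2.2.2.2.1 * uw (N * p.ell ^ uu) e.2.2.2.2.2.2.2.2.1 *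
    uw N e.2.2.2.2.2.2.2.2.2

/-- weight of a list of entries -/
noncomputable def cList : List (Ent p.d) → ℝ≥0∞
  | [] => (2 : ℝ≥0∞)⁻¹
  | e :: l => (2 : ℝ≥0∞)⁻¹ * p.cEnt e * cList l

/-- weight of a block code -/
noncomputable def cB (c : BCode p.d) : ℝ≥0∞ :=
  p.cList c.1 * gw c.2.1 * uw (64 * 2 ^ c.2.1) c.2.2.1 * uw (64 * 2 ^ c.2.1) c.2.2.2

open Classical in
/-- weight of a transition code (`a = 0`: trivial, `a = 1`: lost, otherwise settled) -/
noncomputable def cT (a : ℕ) (c : TCode p.d) : ℝ≥0∞ :=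
  if a = 0 then (if c = 0 then 1 else 0)
  else if a = 1 then
    (if c.1 = 0 ∧ c.2.1 = 0 ∧ c.2.2.1 = 0 then 1 else 0) * uw (4 * p.ell) c.2.2.2.1 *
      uw (4 * p.ell * p.L) c.2.2.2.2
  else gw c.1 * uw 3 c.2.1 * uw 3 c.2.2.1 * uw (p.CR * 2 ^ c.1) c.2.2.2.1 *
    uw (p.CR * 2 ^ c.1) c.2.2.2.2

/-- type of the transition of level `i` -/
def tty (t : ℕ) (c : ℕ → ℕ) (i : ℕ) : ℕ :=
  if t < MM * p.tau (i + 1) then 0 else if c i = 0 then 1 else 2

/-- weight of a full code -/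
noncomputable def cF (t : ℕ) (c : ℕ → ℕ)
    (F : Fin p.n → TCode p.d × (Fin (MM * p.L) → BCode p.d)) : ℝ≥0∞ :=
  ∏ i : Fin p.n, (p.cT (p.tty t c i) (F i).1 * ∏ k, p.cB ((F i).2 k))

open Classical in
/-- the smallest level that remembers the step `j` at time `t` -/
noncomputable def mst (t j : ℕ) : ℕ :=
  if hh : ∃ i, t - j ≤ MM * p.tau (i + 1) then Nat.find hh else 0

variable (om : ℕ → Nz p.d)

/-- number of velocity digits of the remembered jumps -/
noncomputable def Yf (t : ℕ) : ℕ :=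
  ∑ j ∈ Finset.range t,
    if (om j).lab = 1 then p.lv (om j) - p.mst t j else p.lv (om j) - 1 - p.b - p.mst t j

/-- number of remembered jumps -/
noncomputable def nuf (t : ℕ) : ℕ :=
  ((Finset.range t).filter fun j => p.mst t j < p.lv (om j)).card

/-- total relative noise -/
noncomputable def Nf (t : ℕ) : ℝ :=
  ∑ j ∈ Finset.range t, ∑ i ∈ Finset.range p.n,
    if p.mst t j ≤ i ∧ p.lv (om j) ≤ i then p.sz (om j) / p.rho i else 0

open Classical in
/-- number of candidate windows without a positive own ring -/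
noncomputable def failf (t : ℕ) : ℕ :=
  ∑ i ∈ (Finset.range p.n).filter (fun i => MM * p.tau (i + 1) ≤ t), ∑ a ∈ Finset.Icc 1 49,
    ((if ∃ j ∈ Finset.Ico (p.cand t i a - p.tau i) (p.cand t i a - p.tau i + p.W i),
        (om j).lab = i + 2 ∧ (om j).sb = true then 0 else 1) +
     (if ∃ j ∈ Finset.Ico (p.cand t i a) (p.cand t i a + p.W i),
        (om j).lab = i + 2 ∧ (om j).sb = true then 0 else 1))

/-- number of lost levels of the choice `c` -/
def lostf (t : ℕ) (c : ℕ → ℕ) : ℕ :=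
  ((Finset.range p.n).filter fun i => MM * p.tau (i + 1) ≤ t ∧ c i = 0).card

open Classical in
/-- the canonical choice: the first good candidate -/
noncomputable def cho (t i : ℕ) : ℕ :=
  if hh : ∃ a, 1 ≤ a ∧ a ≤ 49 ∧ p.Good om i (p.cand t i a) then Nat.find hh else 0

end Par

end KDB
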